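import Pool.Agent.H38.Baire.Lib

/-!
A free Borel action of `ℤ^d` with Borel 2-colourings of the coordinate subactions and no Borel
`2^d`-polychromatic colouring.
-/

namespace Pool.Agent.H38.Poly

open Set Filter Topology Pool.Agent.H38.Baire

abbrev Om (d : ℕ) := Fin d → (Fin d → ℤ) → ZMod 2

variable {d : ℕ}

def act (u : Fin d → ℤ) (x : Om d) : Om d :=
  fun i w => x i (w + Function.update u i 0) + (u i : ZMod 2)

theorem act_zero (x : Om d) : act 0 x = x := by
  funext i w; simp [act]

theorem act_add (u v : Fin d → ℤ) (x : Om d) : act (u + v) x = act u (act v x) := by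
  funext i w
  have : Function.update (u + v) i 0 = Function.update u i 0 + Function.update v i 0 := by
    funext k; by_cases h : k = i <;> simp [Function.update_apply, h]
  simp only [act, this, Pi.add_apply, Int.cast_add, add_assoc]
  ring

theorem act_cont (u : Fin d → ℤ) : Continuous (act u) := by
  unfold act; fun_prop

def actH (u : Fin d → ℤ) : Om d ≃ₜ Om d where
  toFun := act u
  invFun := act (-u)
  left_inv x := by rw [← act_add]; simp [act_zero]
  right_inv x := by rw [← act_add]; simp [act_zero]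
  continuous_toFun := act_cont u
  continuous_invFun := act_cont _

def Dep {β : Type} (C : Set (Om d)) (i : Fin d) (F : Om d → β) : Prop :=
  ∀ x ∈ C, ∃ J : Finset (Fin d → ℤ), ∀ y ∈ C, (∀ w ∈ J, y i w = x i w) → F y = F x

theorem near {C : Set (Om d)} (hC : Dense C) (z : Om d) (J : Finset (Fin d → ℤ)) :
    ∃ y ∈ C, ∀ i, ∀ w ∈ J, y i w = z i w := by
  obtain ⟨y, h1, h2⟩ := hC.inter_open_nonempty _ (isOpen_cyl2 z Finset.univ J)
    ⟨z, fun _ _ _ _ => rfl⟩
  exact ⟨y, h2, fun i => h1 i (Finset.mem_univ _)⟩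

theorem glue {C : Set (Om d)} (hC : Dense C) {i j : Fin d} (hij : i ≠ j) (x x' : Om d)
    (J J' : Finset (Fin d → ℤ)) :
    ∃ z ∈ C, (∀ w ∈ J, z i w = x i w) ∧ ∀ w ∈ J', z j w = x' j w := by
  obtain ⟨z, hz, h⟩ := near hC (fun k => if k = i then x k else x' k) (J ∪ J')
  exact ⟨z, hz, fun w hw => by simpa using h i w (by simp [hw]),
    fun w hw => by simpa [hij.symm] using h j w (by simp [hw])⟩

theorem dep_of {β : Type} [TopologicalSpace β] [DiscreteTopology β] {C : Set (Om d)}
    (hC : Dense C) (hinv : ∀ u, ∀ x ∈ C, act u x ∈ C) {F : Om d → β} (hF : ContinuousOn F C)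
    {i : Fin d} (h2 : ∀ x ∈ C, F (act (Pi.single i 2) x) = F x) : Dep C i F := by
  have loc : ∀ x ∈ C, ∃ J : Finset (Fin d → ℤ), ∀ y ∈ C, (∀ k, ∀ w ∈ J, y k w = x k w) →
      F y = F x := by
    intro x hx
    have := (hF x hx).preimage_mem_nhdsWithin ((isOpen_discrete {F x}).mem_nhds rfl)
    obtain ⟨U, hU, h⟩ := mem_nhdsWithin_iff_exists_mem_nhds_inter.1 this
    obtain ⟨I, J, hJ⟩ := nhds_supp2 hU
    exact ⟨J, fun y hy h' => h ⟨hJ y fun k _ => h' k, hy⟩⟩
  have per : ∀ N : ℕ, ∀ x ∈ C, F (act (Pi.single i (2 * N)) x) = F x := by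
    intro N
    induction N with
    | zero => intro x _; simp [act_zero]
    | succ N ih =>
      intro x hx
      have : (Pi.single i (2 * ((N + 1 : ℕ) : ℤ)) : Fin d → ℤ) =
          Pi.single i 2 + Pi.single i (2 * (N : ℤ)) := by
        rw [← Pi.single_add]; congr 1; push_cast; ring
      rw [this, act_add, h2 _ (hinv _ _ hx), ih x hx]
  intro x hx
  obtain ⟨J, hJ⟩ := loc x hx
  refine ⟨J, fun y hy hxy => ?_⟩
  obtain ⟨J', hJ'⟩ := loc y hy
  obtain ⟨N, hN⟩ : ∃ N : ℕ, ∀ w ∈ J', w + Pi.single i (2 * (N : ℤ)) ∉ J := by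
    obtain ⟨N, hN⟩ := ((J ×ˢ J').image fun p => (p.1 i - p.2 i).toNat).exists_nat_subset_range
    refine ⟨N, fun w hw h => ?_⟩
    have := hN (Finset.mem_image.2 ⟨(_, w), Finset.mem_product.2 ⟨h, hw⟩, rfl⟩)
    simp at this
    omega
  set s : Fin d → ℤ := Pi.single i (2 * (N : ℤ)) with hs
  obtain ⟨z, hz, h⟩ := near hC
    (fun k w => if k = i then y k w else if w ∈ J then x k w else y k (w - s))
    (J ∪ J' ∪ J'.image (· + s))
  rw [← hJ z hz fun k w hw => ?_, ← per N z hz, hJ' _ (hinv _ _ hz) fun k w hw => ?_]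
  · by_cases hk : k = i
    · subst hk
      have h0 : ((2 * (N : ℤ) : ℤ) : ZMod 2) = 0 := by
        push_cast; rw [show (2 : ZMod 2) = 0 from rfl, zero_mul]
      have := h k w (by simp [hw])
      simp only [if_true] at this
      simp only [act, hs, Pi.single_eq_same, h0, add_zero]
      rw [show Function.update (Pi.single k (2 * (N : ℤ)) : Fin d → ℤ) k 0 = 0 by
        funext l; by_cases hl : l = k <;> simp [Function.update_apply, hl], add_zero, this]
    · have := h k (w + s) (by simp [hw])
      simp only [hk, if_false, if_neg (hN w hw), add_sub_cancel_right] at this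
      have e : s k = 0 := by simp [hs, hk]
      simp only [act, ← hs, e, Int.cast_zero, add_zero]
      rw [← e, Function.update_eq_self, this]
  · have := h k w (by simp [hw])
    by_cases hk : k = i
    · subst hk; simp only [if_true] at this; rw [this, hxy w hw]
    · simpa [hk, hw] using this

def vec (v : Fin d → Bool) : Fin d → ℤ := fun i => if v i then 1 else 0

theorem core (hd : 2 ≤ d) {C : Set (Om d)} (hC : Dense C) (hinv : ∀ u, ∀ x ∈ C, act u x ∈ C)
    {c : Om d → Fin (2 ^ d)} (hc : ContinuousOn c C)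
    (hp : ∀ x ∈ C, ∀ k, ∃ v, c (act (vec v) x) = k) : False := by
  classical
  let cube : Om d → (Fin d → Bool) → Fin (2 ^ d) := fun x v => c (act (vec v) x)
  have hcube : ContinuousOn cube C := continuousOn_pi.2 fun v =>
    hc.comp (act_cont _).continuousOn fun x hx => hinv _ _ hx
  have inj : ∀ x ∈ C, Function.Injective (cube x) := fun x hx =>
    ((Fintype.bijective_iff_surjective_and_card (cube x)).2 ⟨hp x hx, by simp⟩).1
  let k : Fin (2 ^ d) := ⟨0, by positivity⟩
  let q : Om d → Fin d → Bool := fun x => Function.invFun (cube x) k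
  have hq : ∀ x ∈ C, cube x (q x) = k := fun x hx => Function.invFun_eq (hp x hx k)
  have hqc : ∀ i, ContinuousOn (fun x => q x i) C := fun i =>
    (continuous_of_discreteTopology
      (f := fun g : (Fin d → Bool) → Fin (2 ^ d) => Function.invFun g k i)).comp_continuousOn hcube
  have step : ∀ (i : Fin d) x (v : Fin d → Bool), v i = false →
      cube (act (Pi.single i 1) x) v = cube x (Function.update v i true) := by
    intro i x v hv
    simp only [cube, ← act_add]
    congr 2
    funext l
    by_cases hl : l = i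
    · subst hl; simp [vec, hv]
    · simp [vec, hl]
  have up : ∀ (i : Fin d), ∀ x ∈ C, q x i = true →
      q (act (Pi.single i 1) x) = Function.update (q x) i false := by
    intro i x hx h
    refine inj _ (hinv (Pi.single i 1) _ hx) ?_
    rw [hq _ (hinv _ _ hx), step i x _ (by simp), Function.update_idem, ← h,
      Function.update_eq_self, hq x hx]
  have flip : ∀ (i : Fin d), ∀ x ∈ C, q (act (Pi.single i 1) x) i = !q x i := by
    intro i x hx
    cases h : q x i
    · by_contra h'
      have h1 : q (act (Pi.single i 1) x) i = false := by simpa using h'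
      have h2 := hq _ (hinv (Pi.single i 1) _ hx)
      rw [step i x _ h1, ← hq x hx] at h2
      have := congrFun (inj x hx h2) i
      simp [h] at this
    · rw [up i x hx h]; simp
  have two : ∀ i : Fin d, (Pi.single i 2 : Fin d → ℤ) = Pi.single i 1 + Pi.single i 1 := by
    intro i; rw [← Pi.single_add]; rfl
  have flip2 : ∀ (i : Fin d), ∀ x ∈ C, q (act (Pi.single i 2) x) i = q x i := by
    intro i x hx
    rw [two, act_add, flip i _ (hinv _ _ hx), flip i x hx, Bool.not_not]
  let i : Fin d := ⟨0, by omega⟩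
  let j : Fin d := ⟨1, by omega⟩
  have hij : i ≠ j := by simp [i, j]
  have d1 := dep_of hC hinv (hqc i) (flip2 i)
  have d2 := dep_of hC hinv (hqc j) (flip2 j)
  have d3 := dep_of hC hinv (F := fun x => q (act (Pi.single j 1) x) i)
    ((hqc i).comp (act_cont _).continuousOn fun x hx => hinv _ _ hx) (i := i) fun x hx => by
      simp only [← act_add]
      rw [add_comm, act_add, flip2 i _ (hinv _ _ hx)]
  have inv : ∀ x ∈ C, q (act (Pi.single j 1) x) i = q x i := by
    intro x hx
    obtain ⟨x', hx', h⟩ : ∃ x' ∈ C, q x' j = true := by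
      cases h : q x j
      · exact ⟨_, hinv (Pi.single j 1) _ hx, by rw [flip j x hx, h]; rfl⟩
      · exact ⟨x, hx, h⟩
    obtain ⟨J1, h1⟩ := d1 x hx
    obtain ⟨J2, h2⟩ := d2 x' hx'
    obtain ⟨J3, h3⟩ := d3 x hx
    obtain ⟨z, hz, h4, h5⟩ := glue hC hij x x' (J1 ∪ J3) J2
    have e1 := h1 z hz fun w hw => h4 w (by simp [hw])
    have e2 := h2 z hz h5
    have e3 := h3 z hz fun w hw => h4 w (by simp [hw])
    simp only at e1 e2 e3
    rw [← e3, up j z hz (e2.trans h), Function.update_of_ne hij, e1]
  have d4 := dep_of hC hinv (hqc i) (i := j) fun x hx => by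
    rw [two, act_add, inv _ (hinv _ _ hx), inv x hx]
  obtain ⟨x, hx⟩ := hC.nonempty
  obtain ⟨J1, h1⟩ := d1 x hx
  obtain ⟨J4, h4⟩ := d4 _ (hinv (Pi.single i 1) _ hx)
  obtain ⟨z, hz, h5, h6⟩ := glue hC hij x (act (Pi.single i 1) x) J1 J4
  have e1 := h1 z hz h5
  have e2 := h4 z hz h6
  simp only at e1 e2
  rw [flip i x hx, e1] at e2
  simp at e2

def Free (d : ℕ) : Set (Om d) := {x | ∀ u, u ≠ 0 → act u x ≠ x}

theorem free_eq : Free d = ⋂ u : {u : Fin d → ℤ // u ≠ 0}, {x | act u.1 x ≠ x} := by
  ext x; simp [Free]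

theorem free_meas : MeasurableSet (Free d) := by
  rw [free_eq]
  exact MeasurableSet.iInter fun u => (isOpen_ne_fun (act_cont _) continuous_id).measurableSet

theorem free_res (hd : 2 ≤ d) : Free d ∈ residual (Om d) := by
  classical
  rw [free_eq, countable_iInter_mem]
  rintro ⟨u, hu⟩
  refine residual_of_dense_open (isOpen_ne_fun (act_cont _) continuous_id) fun x =>
    mem_closure_iff_nhds.2 fun U hU => ?_
  obtain ⟨I, J, hJ⟩ := nhds_supp2 hU
  obtain ⟨k, hk⟩ := Function.ne_iff.1 hu
  haveI : Nontrivial (Fin d) := Fin.nontrivial_iff_two_le.2 hd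
  obtain ⟨j, hj⟩ := exists_ne k
  haveI : Infinite (Fin d → ℤ) := Pi.infinite_of_exists_right k
  obtain ⟨w, hw⟩ := Infinite.exists_notMem_finset J
  have hne : w + Function.update u j 0 ≠ w := fun e => by
    have := congrFun e k
    simp [Function.update_of_ne hj.symm] at this
    exact hk this
  refine ⟨fun a b => if b = w then x a (w + Function.update u a 0) + (u a : ZMod 2) + 1 else x a b,
    hJ _ fun i _ b hb => if_neg (by rintro rfl; exact hw hb), fun e => ?_⟩
  have := congrFun (congrFun e j) w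
  simp [act, hne] at this

theorem act_free (u : Fin d → ℤ) {x : Om d} (hx : x ∈ Free d) : act u x ∈ Free d := by
  intro v hv e
  refine hx v hv ((actH u).injective ?_)
  change act u (act v x) = act u x
  rw [← act_add, add_comm, act_add, e]

instance : AddAction (Fin d → ℤ) (Free d) where
  vadd u x := ⟨act u x.1, act_free u x.2⟩
  zero_vadd x := Subtype.ext (act_zero _)
  add_vadd u v x := Subtype.ext (act_add _ _ _)

theorem main (hd : 2 ≤ d) :
    ∃ (X : Type) (_ : MeasurableSpace X) (_ : StandardBorelSpace X) (_ : AddAction (Fin d → ℤ) X),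
      (∀ u : Fin d → ℤ, Measurable fun x : X => u +ᵥ x) ∧
      (∀ (u : Fin d → ℤ) (x : X), u +ᵥ x = x → u = 0) ∧
      (∀ i : Fin d, ∃ c : X → Bool, Measurable c ∧
        ∀ x, c ((Pi.single i 1 : Fin d → ℤ) +ᵥ x) ≠ c x) ∧
      ¬ ∃ c : X → Fin (2 ^ d), Measurable c ∧ ∀ (x : X) (k : Fin (2 ^ d)),
        ∃ v : Fin d → ℤ, (∀ i, v i = 0 ∨ v i = 1) ∧ c (v +ᵥ x) = k := by
  classical
  refine ⟨Free d, inferInstance, free_meas.standardBorel, inferInstance, fun u => ?_,
    fun u x h => ?_, fun i => ⟨fun x => decide (x.1 i 0 = 0), ?_, fun x => ?_⟩, ?_⟩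
  · exact ((act_cont u).measurable.comp measurable_subtype_coe).subtype_mk
  · by_contra hu
    exact x.2 u hu (congrArg Subtype.val h)
  · exact (measurable_from_top (f := fun a : ZMod 2 => decide (a = 0))).comp
      ((measurable_pi_apply 0).comp ((measurable_pi_apply i).comp measurable_subtype_coe))
  · change decide (act (Pi.single i 1) x.1 i 0 = 0) ≠ _
    simp only [act, Pi.single_eq_same, Int.cast_one]
    rw [show Function.update (Pi.single i 1 : Fin d → ℤ) i 0 = 0 by
      funext l; by_cases hl : l = i <;> simp [Function.update_apply, hl], add_zero]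
    generalize x.1 i 0 = a
    revert a; decide
  · rintro ⟨c, hc, h⟩
    let c' : Om d → Fin (2 ^ d) := fun x => if hx : x ∈ Free d then c ⟨x, hx⟩ else ⟨0, by positivity⟩
    have hc' : Measurable c' := Measurable.dite hc measurable_const free_meas
    obtain ⟨C, hC, hcC⟩ := exists_continuousOn (f := c') (by
      rw [← BorelSpace.measurable_eq (α := Om d), ← BorelSpace.measurable_eq (α := Fin (2 ^ d))]
      exact hc')
    have hres : {x | x ∈ Free d ∧ ∀ u, act u x ∈ C} ∈ residual (Om d) :=
      inter_mem (free_res hd) (eventually_countable_forall.2 fun u =>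
        tendsto_residual_of_isOpenMap (act_cont u) (actH u).isOpenMap hC)
    refine core hd (dense_of_mem_residual hres) (fun u x hx => ⟨act_free u hx.1, fun v => by
      rw [← act_add]; exact hx.2 _⟩) (hcC.mono fun x hx => by simpa [act_zero] using hx.2 0)
      fun x hx k => ?_
    obtain ⟨v, hv, e⟩ := h ⟨x, hx.1⟩ k
    have : vec (fun i => decide (v i = 1)) = v := by
      funext i; rcases hv i with h | h <;> simp [vec, h]
    refine ⟨fun i => decide (v i = 1), ?_⟩
    rw [this]
    simp only [c', dif_pos (act_free v hx.1)]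
    exact e

end Pool.Agent.H38.Poly
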